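import Mathlib
import Pool.Agent.Q12.Brachy.Core

/-!
# MP_041051_al: a brachymorphism of unital nonassociative rings need not be additive

The source is a unital nonassociative ring of characteristic two (the algebra over the field with
two elements of a unital magma on `ℕ`), the target is the field with two elements.
-/

namespace Pool.Agent.Results.MP_041051_al.NonAdditive

/-- A map between unital nonassociative rings is a brachymorphism if it preserves the successor
map `x ↦ 1 + x` and the multiplication. -/
def IsBrachymorphism {R S : Type} [NonAssocRing R] [NonAssocRing S] (f : R → S) : Prop :=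
  (∀ x : R, f (1 + x) = 1 + f x) ∧ ∀ x y : R, f (x * y) = f x * f y

/-- There are a unital nonassociative ring `R` of characteristic two and a brachymorphism `f` from
`R` to the field `ZMod 2` with two elements which is not additive. -/
theorem result : ∃ (R : Type) (_ : NonAssocRing R) (_ : CharP R 2) (f : R → ZMod 2),
    IsBrachymorphism f ∧ ∃ x y : R, f (x + y) ≠ f x + f y := by
  refine ⟨Q12.Brachy.R, inferInstance, ?_, Q12.Brachy.f,
    ⟨Q12.Brachy.f_one_add, Q12.Brachy.f_mul⟩, Q12.Brachy.X 1, Q12.Brachy.X 2,
    Q12.Brachy.f_not_additive⟩
  refine CharTwo.of_one_ne_zero_of_two_eq_zero one_ne_zero ?_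
  rw [← one_add_one_eq_two]
  exact Q12.Brachy.add_self 1

end Pool.Agent.Results.MP_041051_al.NonAdditive
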